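import Pool.Agent.H25.EE.TargetsB

/-! # Row DETU of the board `ee_modules`: determinant bound, infinite sums -/

set_option autoImplicit false

namespace Pool.Agent.H69.EE5.DETU

open Pool.Agent.H25.EE Polynomial Finset Filter Topology

theorem pf_DETU (hDETF : T_DETF) : T_DETU := by
  intro ι _ _ A B S M a b η U G hA hB ha hb hs hG hη hS hM hU
  have hbd : ∀ N : ℕ, ‖Matrix.det (Matrix.of fun i j =>
      ∑ n ∈ range N, A i n * B j n + (M i j - S i j))‖ ≤
      2 ^ Fintype.card ι * ((Fintype.card ι).factorial : ℝ) ^ 2 * U := by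
    intro N
    refine hDETF ι N A B (fun i j => M i j - S i j) a b η U G hA hB ha hb (fun l => ?_) hη hM hU
    refine le_trans ?_ (hG l)
    rw [Finset.sum_Ico_eq_sum_range]
    have h1 : Summable (fun n => a (n + l) * b (n + l)) :=
      (summable_nat_add_iff (f := fun n => a n * b n) l).2 hs
    have h2 := h1.sum_le_tsum (range (N - l)) (fun i _ => mul_nonneg (ha _) (hb _))
    refine le_trans (le_of_eq ?_) h2
    refine Finset.sum_congr rfl fun i _ => ?_
    rw [Nat.add_comm l i]
  have hlim : Tendsto (fun N : ℕ => (Matrix.of fun i j =>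
      ∑ n ∈ range N, A i n * B j n + (M i j - S i j) : Matrix ι ι ℂ)) atTop
      (𝓝 (Matrix.of fun i j => M i j)) := by
    refine tendsto_pi_nhds.2 fun i => tendsto_pi_nhds.2 fun j => ?_
    have h1 := (hS i j).tendsto_sum_nat.add_const (M i j - S i j)
    have h2 : S i j + (M i j - S i j) = M i j := by ring
    rw [h2] at h1
    exact h1
  have hdet : Continuous fun X : Matrix ι ι ℂ => X.det := continuous_id.matrix_det
  have h3 := (hdet.tendsto _).comp hlim
  exact le_of_tendsto h3.norm (Eventually.of_forall hbd)

end Pool.Agent.H69.EE5.DETU
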