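import Pool.Agent.H25.EE.TargetsB

/-! # Row RL of the board `ee_modules`: confluent Vandermonde, recovery of the coefficients -/

set_option autoImplicit false

namespace Pool.Agent.H69.EE5.RL

open Pool.Agent.H25.EE Polynomial Finset

/-- Taylor coefficients as sums -/
private lemma taylor_sum (p : ℂ[X]) (k l : ℕ) (hp : p.natDegree < k) (w : ℂ) :
    ∑ n ∈ range k, p.coeff n * ((n.descFactorial l : ℂ) * w ^ (n - l)) =
      (l.factorial : ℂ) * (taylor w p).coeff l := by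
  rw [taylor_coeff, hasseDeriv_apply, Polynomial.sum_over_range' p (by intro n; simp) k hp,
    eval_finset_sum, Finset.mul_sum]
  refine Finset.sum_congr rfl fun n _ => ?_
  rw [eval_monomial, Nat.descFactorial_eq_factorial_mul_choose]
  push_cast
  ring

private lemma coeff_zero_step (P : ℂ[X]) (w : ℂ) :
    ((X - C w) * P).coeff 0 = -(w * P.coeff 0) := by
  rw [sub_mul, coeff_sub, coeff_C_mul, coeff_X_mul_zero, zero_sub]

private lemma coeff_succ_step (P : ℂ[X]) (w : ℂ) (n : ℕ) :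
    ((X - C w) * P).coeff (n + 1) = P.coeff n - w * P.coeff (n + 1) := by
  rw [sub_mul, coeff_sub, coeff_C_mul, coeff_X_mul]

/-- degree and weighted length -/
private def Ld (ρ : ℝ) (N : ℕ) (P : ℂ[X]) : Prop :=
  P.natDegree ≤ N ∧ ∀ K, ∑ n ∈ range K, ‖P.coeff n‖ * ρ ^ n ≤ (2 * ρ) ^ N

private lemma Ld_one {ρ : ℝ} (hρ : 1 ≤ ρ) : Ld ρ 0 (1 : ℂ[X]) := by
  refine ⟨by simp, fun K => ?_⟩
  rw [pow_zero]
  cases K with
  | zero => simp
  | succ K =>
    rw [Finset.sum_range_succ']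
    have h1 : ∀ n ∈ range K, ‖(1 : ℂ[X]).coeff (n + 1)‖ * ρ ^ (n + 1) = 0 := by
      intro n _
      rw [coeff_one, if_neg (by omega), norm_zero, zero_mul]
    rw [Finset.sum_eq_zero h1]
    simp

private lemma Ld_step {ρ : ℝ} (hρ : 1 ≤ ρ) {N : ℕ} {P : ℂ[X]} {w : ℂ} (hw : ‖w‖ ≤ ρ)
    (h : Ld ρ N P) : Ld ρ (N + 1) ((X - C w) * P) := by
  obtain ⟨h1, h2⟩ := h
  have hρ0 : 0 < ρ := by linarith
  refine ⟨?_, fun K => ?_⟩
  · refine natDegree_mul_le.trans ?_
    rw [natDegree_X_sub_C]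
    omega
  · have hV : 0 ≤ (2 * ρ) ^ N := by positivity
    cases K with
    | zero =>
      rw [Finset.range_zero, Finset.sum_empty]
      positivity
    | succ K =>
      have e1 : ∑ n ∈ range (K + 1), ‖((X - C w) * P).coeff n‖ * ρ ^ n ≤
          ρ * ∑ n ∈ range K, ‖P.coeff n‖ * ρ ^ n +
            ‖w‖ * ∑ n ∈ range (K + 1), ‖P.coeff n‖ * ρ ^ n := by
        rw [Finset.sum_range_succ', Finset.sum_range_succ' (fun n => ‖P.coeff n‖ * ρ ^ n) K,
          coeff_zero_step, norm_neg, norm_mul]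
        have e2 : ∀ n ∈ range K, ‖((X - C w) * P).coeff (n + 1)‖ * ρ ^ (n + 1) ≤
            ρ * (‖P.coeff n‖ * ρ ^ n) + ‖w‖ * (‖P.coeff (n + 1)‖ * ρ ^ (n + 1)) := by
          intro n _
          rw [coeff_succ_step]
          have e3 : ‖P.coeff n - w * P.coeff (n + 1)‖ ≤
              ‖P.coeff n‖ + ‖w‖ * ‖P.coeff (n + 1)‖ := by
            refine (norm_sub_le _ _).trans ?_
            rw [norm_mul]
          have e4 : 0 ≤ ρ ^ (n + 1) := by positivity
          calc ‖P.coeff n - w * P.coeff (n + 1)‖ * ρ ^ (n + 1)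
              ≤ (‖P.coeff n‖ + ‖w‖ * ‖P.coeff (n + 1)‖) * ρ ^ (n + 1) :=
                mul_le_mul_of_nonneg_right e3 e4
            _ = _ := by rw [pow_succ]; ring
        have e5 := Finset.sum_le_sum e2
        rw [Finset.sum_add_distrib, ← Finset.mul_sum, ← Finset.mul_sum] at e5
        have e6 : ‖w‖ * (∑ n ∈ range K, ‖P.coeff (n + 1)‖ * ρ ^ (n + 1) +
            ‖P.coeff 0‖ * ρ ^ 0) = ‖w‖ * (∑ n ∈ range K, ‖P.coeff (n + 1)‖ * ρ ^ (n + 1)) +
            ‖w‖ * ‖P.coeff 0‖ * ρ ^ 0 := by ring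
        rw [e6]
        linarith
      have e7 : ρ * ∑ n ∈ range K, ‖P.coeff n‖ * ρ ^ n ≤ ρ * (2 * ρ) ^ N :=
        mul_le_mul_of_nonneg_left (h2 K) hρ0.le
      have e8 : ‖w‖ * ∑ n ∈ range (K + 1), ‖P.coeff n‖ * ρ ^ n ≤ ρ * (2 * ρ) ^ N :=
        mul_le_mul hw (h2 (K + 1)) (Finset.sum_nonneg fun n _ => by positivity) hρ0.le
      calc _ ≤ ρ * (2 * ρ) ^ N + ρ * (2 * ρ) ^ N := e1.trans (add_le_add e7 e8)
        _ = (2 * ρ) ^ (N + 1) := by rw [pow_succ]; ring

private lemma Ld_pow {ρ : ℝ} (hρ : 1 ≤ ρ) {N : ℕ} {P : ℂ[X]} {w : ℂ} (hw : ‖w‖ ≤ ρ)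
    (h : Ld ρ N P) (j : ℕ) : Ld ρ (N + j) ((X - C w) ^ j * P) := by
  induction j with
  | zero => simpa using h
  | succ j ih =>
    rw [pow_succ', mul_assoc]
    exact Ld_step hρ hw ih

/-- Taylor coefficients at `z` -/
private def Td (δ : ℝ) (z : ℂ) (N : ℕ) (P : ℂ[X]) : Prop :=
  ∀ m, ‖(taylor z P).coeff m‖ ≤ ‖(taylor z P).coeff 0‖ * ((N : ℝ) / δ) ^ m

private lemma Td_one (δ : ℝ) (z : ℂ) : Td δ z 0 (1 : ℂ[X]) := by
  intro m
  rw [taylor_one]
  cases m with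
  | zero => simp
  | succ m =>
    rw [coeff_C, if_neg (by omega), norm_zero]
    simp

private lemma Td_step {δ : ℝ} (hδ : 0 < δ) {z w : ℂ} (hw : δ ≤ ‖z - w‖) {N : ℕ} {P : ℂ[X]}
    (h : Td δ z N P) : Td δ z (N + 1) ((X - C w) * P) := by
  have e1 : taylor z ((X - C w) * P) = (X - C (w - z)) * taylor z P := by
    rw [taylor_mul, map_sub, taylor_X, taylor_C, C_sub]
    ring
  have hz0 : 0 < ‖z - w‖ := lt_of_lt_of_le hδ hw
  intro m
  rw [e1, coeff_zero_step, norm_neg, norm_mul, norm_sub_rev w z]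
  have hN : (N : ℝ) / δ ≤ ((N + 1 : ℕ) : ℝ) / δ := by
    apply div_le_div_of_nonneg_right _ hδ.le
    push_cast
    linarith
  have hN0 : 0 ≤ (N : ℝ) / δ := by positivity
  cases m with
  | zero =>
    rw [coeff_zero_step, norm_neg, norm_mul, norm_sub_rev w z, pow_zero, mul_one]
  | succ m =>
    rw [coeff_succ_step]
    set T0 := ‖(taylor z P).coeff 0‖ with hT0
    have e2 : ‖(taylor z P).coeff m - (w - z) * (taylor z P).coeff (m + 1)‖ ≤
        T0 * ((N : ℝ) / δ) ^ m + ‖z - w‖ * (T0 * ((N : ℝ) / δ) ^ (m + 1)) := by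
      refine (norm_sub_le _ _).trans ?_
      rw [norm_mul, norm_sub_rev w z]
      exact add_le_add (h m) (mul_le_mul_of_nonneg_left (h (m + 1)) hz0.le)
    refine e2.trans ?_
    have e3 : T0 * ((N : ℝ) / δ) ^ m ≤ ‖z - w‖ * (T0 * ((N : ℝ) / δ) ^ m * (1 / δ)) := by
      have e4 : 0 ≤ T0 * ((N : ℝ) / δ) ^ m := by positivity
      have e5 : 1 ≤ ‖z - w‖ * (1 / δ) := by
        rw [mul_one_div, one_le_div hδ]
        exact hw
      calc T0 * ((N : ℝ) / δ) ^ m = T0 * ((N : ℝ) / δ) ^ m * 1 := (mul_one _).symm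
        _ ≤ T0 * ((N : ℝ) / δ) ^ m * (‖z - w‖ * (1 / δ)) := mul_le_mul_of_nonneg_left e5 e4
        _ = _ := by ring
    have e6 : ((N : ℝ) / δ) ^ m ≤ (((N + 1 : ℕ) : ℝ) / δ) ^ m :=
      pow_le_pow_left₀ hN0 hN m
    calc T0 * ((N : ℝ) / δ) ^ m + ‖z - w‖ * (T0 * ((N : ℝ) / δ) ^ (m + 1))
        ≤ ‖z - w‖ * (T0 * ((N : ℝ) / δ) ^ m * (1 / δ)) +
          ‖z - w‖ * (T0 * ((N : ℝ) / δ) ^ (m + 1)) := by linarith
      _ = ‖z - w‖ * T0 * (((N : ℝ) / δ) ^ m * (((N + 1 : ℕ) : ℝ) / δ)) := by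
          rw [pow_succ]
          push_cast
          ring
      _ ≤ ‖z - w‖ * T0 * ((((N + 1 : ℕ) : ℝ) / δ) ^ m * (((N + 1 : ℕ) : ℝ) / δ)) := by
          gcongr
      _ = ‖z - w‖ * T0 * (((N + 1 : ℕ) : ℝ) / δ) ^ (m + 1) := by rw [pow_succ]

private lemma Td_pow {δ : ℝ} (hδ : 0 < δ) {z w : ℂ} (hw : δ ≤ ‖z - w‖) {N : ℕ} {P : ℂ[X]}
    (h : Td δ z N P) (j : ℕ) : Td δ z (N + j) ((X - C w) ^ j * P) := by
  induction j with
  | zero => simpa using h
  | succ j ih =>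
    rw [pow_succ', mul_assoc]
    exact Td_step hδ hw ih

private lemma prod_bd {τ : Type} [DecidableEq τ] (ω : τ → ℂ) (I : τ → ℕ) {ρ δ : ℝ} (hρ : 1 ≤ ρ)
    (hδ : 0 < δ) (z : ℂ) (T : Finset τ) (hT : ∀ y ∈ T, ‖ω y‖ ≤ ρ ∧ δ ≤ ‖z - ω y‖) :
    Ld ρ (∑ y ∈ T, I y) (∏ y ∈ T, (X - C (ω y)) ^ I y) ∧
      Td δ z (∑ y ∈ T, I y) (∏ y ∈ T, (X - C (ω y)) ^ I y) := by
  induction T using Finset.induction_on with
  | empty => exact ⟨by simpa using Ld_one hρ, by simpa using Td_one δ z⟩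
  | insert y T hy ih =>
    rw [Finset.prod_insert hy, Finset.sum_insert hy, add_comm (I y)]
    obtain ⟨h1, h2⟩ := ih fun y' hy' => hT y' (Finset.mem_insert_of_mem hy')
    obtain ⟨h3, h4⟩ := hT y (Finset.mem_insert_self _ _)
    exact ⟨Ld_pow hρ h3 h1 _, Td_pow hδ h4 h2 _⟩

private lemma taylor_self (a : ℂ) (n : ℕ) (P : ℂ[X]) :
    taylor a ((X - C a) ^ n * P) = X ^ n * taylor a P := by
  rw [taylor_mul, taylor_pow, map_sub, taylor_X, taylor_C, add_sub_cancel_right]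

/-- the functional -/
private lemma Lam {τ : Type} (S : Finset τ) (ω : τ → ℂ) (I : τ → ℕ) (c : τ → ℕ → ℂ) (k : ℕ)
    (p : ℂ[X]) (hp : p.natDegree < k) :
    ∑ n ∈ range k, p.coeff n * (∑ y ∈ S, ∑ l ∈ range (I y),
      c y l * ((n.descFactorial l : ℂ) * ω y ^ (n - l))) =
    ∑ y ∈ S, ∑ l ∈ range (I y), c y l * ((l.factorial : ℂ) * (taylor (ω y) p).coeff l) := by
  simp_rw [Finset.mul_sum]
  rw [Finset.sum_comm]
  refine Finset.sum_congr rfl fun y _ => ?_
  rw [Finset.sum_comm]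
  refine Finset.sum_congr rfl fun l _ => ?_
  rw [← taylor_sum p k l hp (ω y), Finset.mul_sum]
  refine Finset.sum_congr rfl fun n _ => ?_
  ring

/-- the recursion -/
private lemma rec_bd (f : ℕ → ℝ) (n : ℕ) {E A : ℝ} (hE : 0 ≤ E) (hA : 1 ≤ A)
    (h : ∀ i < n, f i ≤ E + ∑ l ∈ Ico (i + 1) n, f l * A ^ (l - i)) :
    ∀ j i, i + j + 1 = n → E + ∑ l ∈ Ico (i + 1) n, f l * A ^ (l - i) ≤ E * (2 * A) ^ j := by
  intro j
  induction j with
  | zero =>
    intro i hi
    rw [Finset.Ico_eq_empty (by omega), Finset.sum_empty]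
    simp
  | succ j ih =>
    intro i hi
    have h1 := ih (i + 1) (by omega)
    have h2 := h (i + 1) (by omega)
    rw [Finset.sum_eq_sum_Ico_succ_bot (show i + 1 < n by omega)]
    have h3 : ∑ l ∈ Ico (i + 1 + 1) n, f l * A ^ (l - i) =
        A * ∑ l ∈ Ico (i + 1 + 1) n, f l * A ^ (l - (i + 1)) := by
      rw [Finset.mul_sum]
      refine Finset.sum_congr rfl fun l hl => ?_
      rw [Finset.mem_Ico] at hl
      rw [show l - i = (l - (i + 1)) + 1 by omega, pow_succ]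
      ring
    rw [h3, show i + 1 - i = 1 by omega, pow_one]
    set F := ∑ l ∈ Ico (i + 1 + 1) n, f l * A ^ (l - (i + 1)) with hF
    have h4 : f (i + 1) * A ≤ (E + F) * A := mul_le_mul_of_nonneg_right h2 (by linarith)
    have h5 : 2 * A * (E + F) ≤ 2 * A * (E * (2 * A) ^ j) :=
      mul_le_mul_of_nonneg_left h1 (by linarith)
    have h6 : E ≤ A * E := le_mul_of_one_le_left hE hA
    calc E + (f (i + 1) * A + A * F) ≤ A * E + ((E + F) * A + A * F) := by linarith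
      _ = 2 * A * (E + F) := by ring
      _ ≤ _ := h5
      _ = E * (2 * A) ^ (j + 1) := by rw [pow_succ]; ring

private lemma fact_bd (D i : ℕ) : ∀ m, i + m ≤ D → (i + m).factorial ≤ i.factorial * D ^ m := by
  intro m
  induction m with
  | zero => intro _; simp
  | succ m ih =>
    intro h
    rw [← add_assoc, Nat.factorial_succ, pow_succ]
    calc (i + m + 1) * (i + m).factorial ≤ D * (i.factorial * D ^ m) :=
          Nat.mul_le_mul (by omega) (ih (by omega))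
      _ = i.factorial * (D ^ m * D) := by ring

theorem pf_RL : T_RL := by
  intro τ _ S ω I c ρ δ B Q D hρ hδ hδ1 hB hQ hD hS hsep hprod hval x hx
  have hIk : I x ≤ ∑ x ∈ S, I x := Finset.single_le_sum (f := I) (fun _ _ => Nat.zero_le _) hx
  have hN : ∑ y ∈ S.erase x, I y + I x = ∑ x ∈ S, I x := Finset.sum_erase_add S I hx
  set k := ∑ x ∈ S, I x with hk
  set Qp : ℂ[X] := ∏ y ∈ S.erase x, (X - C (ω y)) ^ I y with hQp
  set N := ∑ y ∈ S.erase x, I y with hNdef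
  obtain ⟨hL, hT⟩ := prod_bd ω I hρ hδ (ω x) (S.erase x) (fun y hy =>
    ⟨(hS y (Finset.mem_of_mem_erase hy)).1, hsep x hx y (Finset.mem_of_mem_erase hy)
      (Finset.ne_of_mem_erase hy).symm⟩)
  rw [← hQp, ← hNdef] at hL hT
  set T : ℕ → ℂ := fun m => (taylor (ω x) Qp).coeff m with hTdef
  have hT' : ∀ m, ‖T m‖ ≤ ‖T 0‖ * ((N : ℝ) / δ) ^ m := hT
  have hT0 : Q ≤ ‖T 0‖ := by
    have e1 : T 0 = ∏ y ∈ S.erase x, (ω x - ω y) ^ I y := by
      rw [hTdef]
      simp only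
      rw [taylor_coeff_zero, hQp, eval_prod]
      refine Finset.prod_congr rfl fun y _ => ?_
      rw [eval_pow, eval_sub, eval_X, eval_C]
    rw [e1, norm_prod]
    refine (hprod x hx).trans (le_of_eq ?_)
    exact Finset.prod_congr rfl fun y _ => (norm_pow _ _).symm
  have hT0' : 0 < ‖T 0‖ := lt_of_lt_of_le hQ hT0
  have hID : I x ≤ D := (hS x hx).2
  -- the values of the functional
  have hid : ∀ i < I x, ∑ n ∈ range k, ((X - C (ω x)) ^ i * Qp).coeff n *
      (∑ y ∈ S, ∑ l ∈ range (I y), c y l * ((n.descFactorial l : ℂ) * ω y ^ (n - l))) =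
      ∑ l ∈ range (I x), c x l * ((l.factorial : ℂ) * if i ≤ l then T (l - i) else 0) := by
    intro i hi
    have hdeg : ((X - C (ω x)) ^ i * Qp).natDegree < k := by
      have := (Ld_pow hρ (hS x hx).1 hL i).1
      omega
    rw [Lam S ω I c k _ hdeg]
    rw [Finset.sum_eq_single x]
    · refine Finset.sum_congr rfl fun l _ => ?_
      rw [taylor_self, coeff_X_pow_mul']
    · intro y hy hyx
      refine Finset.sum_eq_zero fun l hl => ?_
      rw [Finset.mem_range] at hl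
      have e1 : (X - C (ω x)) ^ i * Qp = (X - C (ω y)) ^ I y *
          ((X - C (ω x)) ^ i * ∏ y' ∈ (S.erase x).erase y, (X - C (ω y')) ^ I y') := by
        rw [hQp, ← Finset.mul_prod_erase (S.erase x) (fun y => (X - C (ω y)) ^ I y)
          (Finset.mem_erase.2 ⟨hyx, hy⟩)]
        ring
      rw [e1, taylor_self, coeff_X_pow_mul', if_neg (by omega), mul_zero, mul_zero]
    · intro h
      exact absurd hx h
  -- the bound for the functional
  have hLam : ∀ i < I x, ‖∑ n ∈ range k, ((X - C (ω x)) ^ i * Qp).coeff n *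
      (∑ y ∈ S, ∑ l ∈ range (I y), c y l * ((n.descFactorial l : ℂ) * ω y ^ (n - l)))‖ ≤
      B * (2 * ρ) ^ k := by
    intro i hi
    refine (norm_sum_le _ _).trans ?_
    have e1 : ∀ n ∈ range k, ‖((X - C (ω x)) ^ i * Qp).coeff n *
        (∑ y ∈ S, ∑ l ∈ range (I y), c y l * ((n.descFactorial l : ℂ) * ω y ^ (n - l)))‖ ≤
        B * (‖((X - C (ω x)) ^ i * Qp).coeff n‖ * ρ ^ n) := by
      intro n hn
      rw [norm_mul]
      calc _ ≤ ‖((X - C (ω x)) ^ i * Qp).coeff n‖ * (B * ρ ^ n) :=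
            mul_le_mul_of_nonneg_left (hval n (Finset.mem_range.1 hn)) (norm_nonneg _)
        _ = _ := by ring
    refine (Finset.sum_le_sum e1).trans ?_
    rw [← Finset.mul_sum]
    refine mul_le_mul_of_nonneg_left ?_ hB
    refine ((Ld_pow hρ (hS x hx).1 hL i).2 k).trans ?_
    exact pow_le_pow_right₀ (by linarith) (by omega)
  set E : ℝ := B * ((2 * ρ) ^ k / Q) with hE
  set A : ℝ := D * (k : ℝ) / δ with hA
  have hE0 : 0 ≤ E := by positivity
  intro i0 hi0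
  have hk1 : 1 ≤ k := by omega
  have hA1 : 1 ≤ A := by
    rw [hA, one_le_div hδ]
    have h1 : (1 : ℝ) ≤ D := by exact_mod_cast hD
    have h2 : (1 : ℝ) ≤ k := by exact_mod_cast hk1
    nlinarith
  have hrec : ∀ i < I x, ‖c x i‖ ≤ E + ∑ l ∈ Ico (i + 1) (I x), ‖c x l‖ * A ^ (l - i) := by
    intro i hi
    have e1 := hid i hi
    have e2 := hLam i hi
    rw [e1] at e2
    have e3 : ∑ l ∈ range (I x), c x l * ((l.factorial : ℂ) * if i ≤ l then T (l - i) else 0) =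
        c x i * ((i.factorial : ℂ) * T 0) +
          ∑ l ∈ Ico (i + 1) (I x), c x l * ((l.factorial : ℂ) * T (l - i)) := by
      rw [Finset.range_eq_Ico, ← Finset.sum_Ico_consecutive _ (Nat.zero_le i) hi.le]
      have e4 : ∑ l ∈ Ico 0 i,
          c x l * ((l.factorial : ℂ) * if i ≤ l then T (l - i) else 0) = 0 := by
        refine Finset.sum_eq_zero fun l hl => ?_
        rw [Finset.mem_Ico] at hl
        rw [if_neg (by omega), mul_zero, mul_zero]
      rw [e4, zero_add, Finset.sum_eq_sum_Ico_succ_bot hi, if_pos le_rfl, Nat.sub_self]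
      congr 1
      refine Finset.sum_congr rfl fun l hl => ?_
      rw [Finset.mem_Ico] at hl
      rw [if_pos (by omega)]
    rw [e3] at e2
    have hfi : (0 : ℝ) < i.factorial := by exact_mod_cast Nat.factorial_pos i
    have hfi1 : (1 : ℝ) ≤ i.factorial := by exact_mod_cast Nat.factorial_pos i
    have e5 : ‖c x i‖ * (i.factorial * ‖T 0‖) ≤ B * (2 * ρ) ^ k +
        ∑ l ∈ Ico (i + 1) (I x), ‖c x l‖ * (l.factorial * ‖T (l - i)‖) := by
      have e6 : ‖c x i * ((i.factorial : ℂ) * T 0)‖ = ‖c x i‖ * (i.factorial * ‖T 0‖) := by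
        rw [norm_mul, norm_mul, Complex.norm_natCast]
      have e7 : ‖∑ l ∈ Ico (i + 1) (I x), c x l * ((l.factorial : ℂ) * T (l - i))‖ ≤
          ∑ l ∈ Ico (i + 1) (I x), ‖c x l‖ * (l.factorial * ‖T (l - i)‖) := by
        refine (norm_sum_le _ _).trans (le_of_eq ?_)
        refine Finset.sum_congr rfl fun l _ => ?_
        rw [norm_mul, norm_mul, Complex.norm_natCast]
      have e8 := norm_sub_le
        (c x i * ((i.factorial : ℂ) * T 0) +
          ∑ l ∈ Ico (i + 1) (I x), c x l * ((l.factorial : ℂ) * T (l - i)))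
        (∑ l ∈ Ico (i + 1) (I x), c x l * ((l.factorial : ℂ) * T (l - i)))
      rw [add_sub_cancel_right, e6] at e8
      linarith
    have e9 : ∀ l ∈ Ico (i + 1) (I x), ‖c x l‖ * (l.factorial * ‖T (l - i)‖) ≤
        (i.factorial * ‖T 0‖) * (‖c x l‖ * A ^ (l - i)) := by
      intro l hl
      rw [Finset.mem_Ico] at hl
      have h1 : (l.factorial : ℝ) ≤ i.factorial * (D : ℝ) ^ (l - i) := by
        have h2 := fact_bd D i (l - i) (by omega)
        rw [show i + (l - i) = l by omega] at h2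
        exact_mod_cast h2
      have h3 : (D : ℝ) ^ (l - i) * ((N : ℝ) / δ) ^ (l - i) ≤ A ^ (l - i) := by
        rw [← mul_pow, hA, ← mul_div_assoc]
        refine pow_le_pow_left₀ (by positivity) ?_ _
        refine div_le_div_of_nonneg_right ?_ hδ.le
        refine mul_le_mul_of_nonneg_left ?_ (by positivity)
        have : N ≤ k := by omega
        exact_mod_cast this
      have h4 : (l.factorial : ℝ) * ‖T (l - i)‖ ≤ (i.factorial * ‖T 0‖) * A ^ (l - i) := by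
        calc (l.factorial : ℝ) * ‖T (l - i)‖
            ≤ (i.factorial * (D : ℝ) ^ (l - i)) * (‖T 0‖ * ((N : ℝ) / δ) ^ (l - i)) :=
              mul_le_mul h1 (hT' _) (norm_nonneg _) (by positivity)
          _ = (i.factorial * ‖T 0‖) * ((D : ℝ) ^ (l - i) * ((N : ℝ) / δ) ^ (l - i)) := by ring
          _ ≤ _ := mul_le_mul_of_nonneg_left h3 (by positivity)
      calc ‖c x l‖ * (l.factorial * ‖T (l - i)‖)
          ≤ ‖c x l‖ * ((i.factorial * ‖T 0‖) * A ^ (l - i)) :=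
            mul_le_mul_of_nonneg_left h4 (norm_nonneg _)
        _ = _ := by ring
    have e10 := Finset.sum_le_sum e9
    rw [← Finset.mul_sum] at e10
    have hpos : 0 < i.factorial * ‖T 0‖ := by positivity
    have e11 : B * (2 * ρ) ^ k ≤ (i.factorial * ‖T 0‖) * E := by
      rw [hE]
      have h1 : Q ≤ i.factorial * ‖T 0‖ := by
        calc Q ≤ ‖T 0‖ := hT0
          _ = 1 * ‖T 0‖ := (one_mul _).symm
          _ ≤ i.factorial * ‖T 0‖ := mul_le_mul_of_nonneg_right hfi1 (norm_nonneg _)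
      have h2 : 0 ≤ B * ((2 * ρ) ^ k / Q) := hE0
      calc B * (2 * ρ) ^ k = Q * (B * ((2 * ρ) ^ k / Q)) := by field_simp
        _ ≤ _ := mul_le_mul_of_nonneg_right h1 h2
    have e12 : (i.factorial * ‖T 0‖) * ‖c x i‖ ≤ (i.factorial * ‖T 0‖) *
        (E + ∑ l ∈ Ico (i + 1) (I x), ‖c x l‖ * A ^ (l - i)) := by
      rw [mul_add]
      linarith
    exact le_of_mul_le_mul_left e12 hpos
  have h1 := rec_bd (fun l => ‖c x l‖) (I x) hE0 hA1 hrec (I x - 1 - i0) i0 (by omega)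
  refine (hrec i0 hi0).trans (h1.trans ?_)
  have h2 : (2 : ℝ) * D * (k : ℝ) / δ = 2 * A := by
    rw [hA]
    ring
  rw [h2]
  refine mul_le_mul_of_nonneg_left ?_ hE0
  exact pow_le_pow_right₀ (by linarith) (by omega)

end Pool.Agent.H69.EE5.RL
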